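import Pool.Agent.Helper90.TS.Stmts

/-!
# MP_79eb7e_lc: module SYM (symmetry of independence)
-/

set_option autoImplicit false

namespace Pool.Agent.Helper90.TS

theorem sym_tr_fix {V G : Type} [Group G] [MulAction G V] {A : Set V} {g : G}
    (hg : g ∈ Fx G A) : tr g A = A := by
  ext x
  constructor
  · rintro ⟨a, ha, rfl⟩
    have : g • a = a := hg a ha
    simpa only [this] using ha
  · intro hx
    exact ⟨x, hx, hg x hx⟩

theorem sym_tr_union {V G : Type} [Group G] [MulAction G V] {A : Set V} {g : G} {ι : Type}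
    (hg : g ∈ Fx G A) (c : ι → V) : tr g (A ∪ Set.range c) = A ∪ Set.range (g • c) := by
  have h1 : tr g (A ∪ Set.range c) = tr g A ∪ tr g (Set.range c) := Set.image_union _ _ _
  have h2 : tr g (Set.range c) = Set.range (g • c) := by
    ext x
    constructor
    · rintro ⟨a, ⟨i, rfl⟩, rfl⟩
      exact ⟨i, rfl⟩
    · rintro ⟨i, rfl⟩
      exact ⟨c i, ⟨i, rfl⟩, rfl⟩
  rw [h1, h2, sym_tr_fix hg]

theorem st_SYM (h1 : ST_SYMM) (h2 : ST_SATM) (h3 : ST_EXT) (h4 : ST_RKB) : ST_SYM := by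
  intro V G _ _ X A hA κ ι _ _ b c h
  obtain ⟨M, hAM, hM⟩ := h2 V G X A hA
  obtain ⟨c', hcc', hrc'⟩ := h3 V G X A M hM.1 hAM ι c
  obtain ⟨g, hg, hgc⟩ := hcc'
  obtain ⟨-, -, -, -, b5, b6⟩ := h4 V G X κ b
  obtain ⟨-, -, -, -, c5, c6⟩ := h4 V G X ι c
  have hb1 : X.rk (A ∪ Set.range c') (g • b) = X.rk A b := by
    rw [← h, ← b5 (A ∪ Set.range c) g, sym_tr_union hg c, hgc]
  have hb1A : X.rk A (g • b) = X.rk A b := b6 A (g • b) ⟨g, hg, rfl⟩
  have hMc : (M ∪ Set.range c').Countable := hM.1.union (Set.countable_range c')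
  obtain ⟨b', hbb', hrb'⟩ := h3 V G X (A ∪ Set.range c') (M ∪ Set.range c') hMc
    (Set.union_subset_union_left _ hAM) κ (g • b)
  obtain ⟨k, hk, hkb⟩ := hbb'
  have hkA : k ∈ Fx G A := fun a ha => hk a (Or.inl ha)
  have hkg : k * g ∈ Fx G A := mul_mem hkA hg
  have hkc : k • c' = c' := by
    funext i
    exact hk (c' i) (Or.inr ⟨i, rfl⟩)
  have hb' : (k * g) • b = b' := by rw [mul_smul, hkb]
  have hc' : (k * g) • c = c' := by rw [mul_smul, hgc, hkc]
  obtain ⟨-, -, -, b4', -, -⟩ := h4 V G X κ b'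
  obtain ⟨-, -, -, c4', -, -⟩ := h4 V G X ι c'
  have hAb' : X.rk A b' = X.rk A b := b6 A b' ⟨k * g, hkg, hb'⟩
  have hAc' : X.rk A c' = X.rk A c := c6 A c' ⟨k * g, hkg, hc'⟩
  have s1 : X.rk (M ∪ Set.range c') b' ≤ X.rk M b' := b4' _ _ Set.subset_union_left
  have s2 : X.rk M b' ≤ X.rk A b' := b4' _ _ hAM
  have s3 : X.rk (M ∪ Set.range c') b' = X.rk A b := by rw [hrb', hb1]
  have s4 : X.rk (M ∪ Set.range c') b' = X.rk M b' := by
    apply le_antisymm s1
    rw [s3, ← hAb']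
    exact s2
  have s5 := h1 V G X M hM κ ι b' c' s4
  have s6 : X.rk (M ∪ Set.range b') c' = X.rk A c := by rw [s5, hrc']
  have s7 : X.rk (M ∪ Set.range b') c' ≤ X.rk (A ∪ Set.range b') c' :=
    c4' _ _ (Set.union_subset_union_left _ hAM)
  have s8 : X.rk (A ∪ Set.range b') c' ≤ X.rk A c' := c4' _ _ Set.subset_union_left
  have s9 : X.rk (A ∪ Set.range b') c' = X.rk A c := by
    apply le_antisymm
    · rw [← hAc']
      exact s8
    · rw [← s6]
      exact s7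
  rw [← s9, ← c5 (A ∪ Set.range b) (k * g), sym_tr_union hkg b, hb', hc']

end Pool.Agent.Helper90.TS
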